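import Pool.Agent.H554R2.RK.ExactCount

/-!
# Disjunctions of one-pass programs and exact counting

For every `k` there are functions `f` of `n` Boolean variables which are the disjunction of a
constant number of functions computed by read-once branching programs with `O(n)` nodes, with a
fixed order of the variables, while `f` is not given by exact counting with fewer than
`2 ^ (n / D)` deterministic read-`k`-times programs with fewer than `2 ^ (n / D)` nodes each.

The difference of the number of accepting programs and the threshold is squared; products of two
programs are programs which read every variable at most `2 k` times, and the inputs accepted by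
them are a disjoint union of few rectangles, over which the sign of the parity of the forms has
exponentially small sums.

The lemmas were proved together with helper498, helper55, helper92, helper132, helper143, helper218,
helper234, helper259, helper409, helper431, helper463, helper556, helper724, helper819, helper873,
and the authors of `Pool.Agent.H554R2.Rnd` (random partitions and coefficients).
-/

set_option autoImplicit false

open Finset

namespace Pool.Agent.Results.MP_76375d_lc.OrExactReadK

open Pool.Agent.H554R2.Sem Pool.Agent.H554R2.Coin Pool.Agent.H554R2.RK

/-- For every `k` there is a constant `D` such that for all `n ≥ D` there are `m ≤ D` functions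
`q j` of `n` Boolean variables with the following properties.

* Each `q j` is computed by a deterministic program with at most `D n` nodes, which on all inputs
  queries the same variables in the same order, each of them at most once.
* If `P ω`, `ω ∈ Ω`, are fewer than `2 ^ (n / D)` deterministic programs with fewer than
  `2 ^ (n / D)` nodes each, which on every path of the graph query every variable at most `k`
  times, and `t` is a number, then it is not the case that for all inputs `x` exactly `t` of the
  programs accept `x` if and only if some `q j x` is true. -/
theorem result (k : ℕ) : ∃ D : ℕ, 0 < D ∧ ∀ n ≥ D, ∃ (m : ℕ) (q : Fin m → Pt n → Bool),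
    m ≤ D ∧
    (∀ j, ∃ (U : BP (Fin n) Bool) (l : List (Fin n)), Fintype.card U.State ≤ D * n ∧ l.Nodup ∧
      ∀ x : Pt n, U.Comp x l (q j x)) ∧
    ∀ (Ω : Type) [Fintype Ω] (P : Ω → NBP (Fin n)), (∀ ω, ReadK (P ω) k) →
      (∀ ω, Determ (P ω)) → (∀ ω, Fintype.card (P ω).State < 2 ^ (n / D)) →
        Nat.card Ω < 2 ^ (n / D) → ∀ t : ℕ,
          ∃ x, ¬ (Nat.card {ω // Acc (P ω) x} = t ↔ ∃ j, q j x = true) :=
  exact_final k

end Pool.Agent.Results.MP_76375d_lc.OrExactReadK
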